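import Pool.Prelude.Def_H_3587d628

/-! END OF THE LINE, generalized circuits and polynomial time reductions. -/

set_option autoImplicit false

namespace Pool.Agent.MP_13199e_lc

/-- A Boolean circuit: a list of gates (a truth table and two earlier wires) and a list of output
wires.  On an input of length `n` the wires `0, …, n - 1` are the input bits and the `k`-th gate
defines the wire `n + k`. -/
abbrev BCirc : Type := List ((Bool × Bool × Bool × Bool) × ℕ × ℕ) × List ℕ

/-- The function of two bits with the truth table `t`. -/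
def tt (t : Bool × Bool × Bool × Bool) (a b : Bool) : Bool :=
  bif a then (bif b then t.2.2.2 else t.2.2.1) else (bif b then t.2.1 else t.1)

/-- The values of all wires. -/
def wires (C : BCirc) (x : List Bool) : List Bool :=
  C.1.foldl (fun v g => v ++ [tt g.1 (v.getD g.2.1 false) (v.getD g.2.2 false)]) x

/-- The output of a circuit. -/
def ev (C : BCirc) (x : List Bool) : List Bool := C.2.map fun o => (wires C x).getD o false

/-- `(S, P)` is an instance of END OF THE LINE on `n` bits, `n` being the number of outputs. -/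
def EolInst (I : BCirc × BCirc) : Prop :=
  I.2.2.length = I.1.2.length ∧
    ev I.2 (List.replicate I.1.2.length false) = List.replicate I.1.2.length false ∧
    ev I.1 (List.replicate I.1.2.length false) ≠ List.replicate I.1.2.length false

/-- `x` solves the instance `(S, P)`. -/
def EolSol (I : BCirc × BCirc) (x : List Bool) : Prop :=
  x.length = I.1.2.length ∧ (ev I.2 (ev I.1 x) ≠ x ∨
    (ev I.1 (ev I.2 x) ≠ x ∧ x ≠ List.replicate I.1.2.length false))

/-- A generalized circuit with one gate for each node: the `c`-th entry (type, parameter, first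
input, second input) is the gate with the output node `c`. -/
abbrev GCirc : Type := List (ℕ × ℚ × ℕ × ℕ)

/-- There is a gate, the types are `0, …, 8`, the parameters are in `[0, 1]`, the inputs are
nodes. -/
def GWf (C : GCirc) : Prop :=
  C ≠ [] ∧ ∀ g ∈ C, g.1 < 9 ∧ 0 ≤ g.2.1 ∧ g.2.1 ≤ 1 ∧ g.2.2.1 < C.length ∧ g.2.2.2 < C.length

/-- The constraint of a gate of type `k` with parameter `α`, input values `a`, `b` and output value
`c`; the types `0, …, 8` are constant, scaling, copy, sum, difference, comparison, or, and, not. -/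
def GOk (ε : ℚ) (k : ℕ) (α a b c : ℚ) : Prop :=
  (k = 0 → |c - α| ≤ ε) ∧ (k = 1 → |c - α * a| ≤ ε) ∧ (k = 2 → |c - a| ≤ ε) ∧
  (k = 3 → |c - min (a + b) 1| ≤ ε) ∧ (k = 4 → |c - max (a - b) 0| ≤ ε) ∧
  (k = 5 → (a < b - ε → |c - 1| ≤ ε) ∧ (a > b + ε → |c| ≤ ε)) ∧
  (k = 6 → (|a - 1| ≤ ε ∨ |b - 1| ≤ ε → |c - 1| ≤ ε) ∧ (|a| ≤ ε ∧ |b| ≤ ε → |c| ≤ ε)) ∧
  (k = 7 → (|a - 1| ≤ ε ∧ |b - 1| ≤ ε → |c - 1| ≤ ε) ∧ (|a| ≤ ε ∨ |b| ≤ ε → |c| ≤ ε)) ∧
  (k = 8 → (|a| ≤ ε → |c - 1| ≤ ε) ∧ (|a - 1| ≤ ε → |c| ≤ ε))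

/-- The assignment `x` meets the constraint of the gate with the output node `c`. -/
def GSat (ε : ℚ) (C : GCirc) (x : List ℚ) (c : ℕ) : Prop :=
  ∀ g, C[c]? = some g → GOk ε g.1 g.2.1 (x.getD g.2.2.1 0) (x.getD g.2.2.2 0) (x.getD c 0)

/-- `x` gives each node a value in `[0, 1]`. -/
def GAsg (C : GCirc) (x : List ℚ) : Prop := x.length = C.length ∧ ∀ y ∈ x, 0 ≤ y ∧ y ≤ 1

/-- `x` meets all constraints except at most a `δ` fraction. -/
def GSol (ε δ : ℚ) (C : GCirc) (x : List ℚ) : Prop :=
  GAsg C x ∧ (Set.ncard {c | c < C.length ∧ ¬GSat ε C x c} : ℚ) ≤ δ * C.length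

/-- The gates are cut into consecutive blocks of `s` gates, and `x` meets all constraints in at
least an `η` fraction of the blocks. -/
def BSol (ε η : ℚ) (s : ℕ) (C : GCirc) (x : List ℚ) : Prop :=
  GAsg C x ∧ η * (C.length / s : ℕ) ≤
    (Set.ncard {k | k < C.length / s ∧ ∀ i < s, GSat ε C x (k * s + i)} : ℚ)

/-- A polynomial time reduction from END OF THE LINE to the search problem whose instances are
the generalized circuits with `W` and whose solutions are given by `Sol`. -/
def Reduces (W : GCirc → Prop) (Sol : GCirc → List ℚ → Prop) : Prop :=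
  ∃ (f : BCirc × BCirc → GCirc) (g : (BCirc × BCirc) × List ℚ → List Bool),
    N68a2faeb.IsPolyTime f ∧ N68a2faeb.IsPolyTime g ∧
      ∀ I, EolInst I → GWf (f I) ∧ W (f I) ∧ ∀ x, Sol (f I) x → EolSol I (g (I, x))

/-- The polynomial form of the conjecture. -/
def PolyPCP : Prop := ∃ ε δ : ℚ, 0 < ε ∧ 0 < δ ∧ Reduces (fun _ => True) (GSol ε δ)

/-- The optimal gap form. -/
def OptGap : Prop := ∀ η : ℚ, 0 < η → ∃ (s : ℕ) (ε : ℚ), 0 < s ∧ 0 < ε ∧
  Reduces (fun C => s ∣ C.length) (BSol ε η s)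

end Pool.Agent.MP_13199e_lc
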