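import Pool.Agent.MP_13199e_lc.Defs

/-! Quasilinear reductions from END OF THE LINE. -/

set_option autoImplicit false

namespace Pool.Agent.MP_13199e_lc

/-- The size of an instance: the number of input bits plus the numbers of gates. -/
def sz (I : BCirc × BCirc) : ℕ := I.1.2.length + I.1.1.length + I.2.1.length

/-- A polynomial time reduction from END OF THE LINE that sends an instance of size `n` to a
generalized circuit with at most `n (log n + 2) ^ c` gates. -/
def QReduces (c : ℕ) (W : GCirc → Prop) (Sol : GCirc → List ℚ → Prop) : Prop :=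
  ∃ (f : BCirc × BCirc → GCirc) (g : (BCirc × BCirc) × List ℚ → List Bool),
    N68a2faeb.IsPolyTime f ∧ N68a2faeb.IsPolyTime g ∧
      ∀ I, EolInst I → GWf (f I) ∧ W (f I) ∧
        (f I).length ≤ sz I * (Nat.log 2 (sz I) + 2) ^ c ∧
        ∀ x, Sol (f I) x → EolSol I (g (I, x))

end Pool.Agent.MP_13199e_lc
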